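import Pool.Agent.H172.AP.Pos
import Pool.Agent.W709.RT.San
import Pool.Agent.H550R3.Jones.SanSkein699

/-!
# The Kashaev invariants of amphicheiral two-bridge links are positive real numbers

`C(a_1, …, a_r)` is the two-bridge link with the twist regions `a_1, …, a_r` (arbitrary integers).
Cut open it is the (1,1)-tangle of the following picture: start with one strand and a cup to its
right (three strands), perform `a_1` crossings between the strands 1 and 2, then `-a_2` crossings
between the strands 2 and 3, then `a_3` crossings between the strands 1 and 2, and so on; finally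
close by a cap the strands 1 and 2 if `r` is even (the third strand leaves), the strands 2 and 3 if
`r` is odd (the first strand leaves).  For a list `c` let `c̄` be the reversed list; the knots
`C(c, c̄)` with positive entries are the amphicheiral two-bridge knots.

Everything is defined from the R-matrix of `U_q(sl_2)`, with `v = q^{1/2}` and
`{k} = v^k - v^{-k}`.  The `N`-coloured Jones polynomial is the (scalar) operator of the
(1,1)-tangle, read off at the highest weight vector.  The Kashaev invariant `a_N` is its value at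
`v = exp (π i / N)`, that is `q = exp (2 π i / N)`.  In the diagram of `C(c, c̄)` there are as many
crossings `P` as crossings `Q`, and the diagram is carried to its mirror image by an isotopy of the
sphere; so the framing factors cancel, and for odd `N` (when the representation is orthogonal) the
value `kashaev (c ++ c̄) N` is the normalised coloured Jones polynomial itself, without any factor.

The theorem: for all lists `c` and all `N ≥ 1` the number `a_N (C(c, c̄))` is a positive real number.
So for amphicheiral two-bridge links the sequence `a_n` does not vanish, and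
`π log (a_{n+2} / a_n)` is real for the principal value of the logarithm: the imaginary part of the
limit in the complexified volume conjecture exists, and is `0` (for an amphicheiral link the
Chern-Simons invariant satisfies `2 CS = 0` modulo `π²`).  The real part, that
`π log |a_{n+2} / a_n|` converges to the volume, is not treated here.

More generally the numbers `a_N (C(c_j, c̄_i))` form a positive semidefinite hermitian matrix, for all
finite families of lists `c_i` whose lengths have the same parity.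

The proof: at this root of unity the tangle is a matrix coefficient of the braid for an invariant
hermitian form, for which the crossing of the strands 1, 2 is adjoint to the opposite crossing of the
strands 2, 3; the form is positive semidefinite on the highest weight vectors.
-/

set_option autoImplicit false

namespace Pool.Agent.Results.MP_b30479_gt.AmphicheiralTwoBridge

open Finset Filter Topology

/-! ### The coloured Jones polynomial -/

/-- `{n} = v^n - v^{-n}` -/
noncomputable def br (v : ℂ) (n : ℤ) : ℂ := v ^ n - v ^ (-n)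

/-- `{n}! = {1} {2} ⋯ {n}` -/
noncomputable def brf (v : ℂ) (n : ℕ) : ℂ := ∏ j ∈ range n, br v ((j : ℤ) + 1)

/-- The positive crossing: the R-matrix of `U_q(sl_2)` on `V_N ⊗ V_N`, `V_N` with basis
`e_0, …, e_{N-1}`, times the framing factor `v^{-(N^2-1)/2}`; `crossP N v p q` is the coefficient
of `e_{p.1} ⊗ e_{p.2}` in the image of `e_{q.1} ⊗ e_{q.2}`:
`e_i ⊗ e_j ↦ ∑_n v^{-(N-1)(1+i+j) + 2(i-n)(j+n) + n(n-1)/2}
({j+n}! / ({j}! {n}!)) ∏_{t<n} {N-i+t} e_{j+n} ⊗ e_{i-n}`. -/
noncomputable def crossP (N : ℕ) (v : ℂ) : Matrix (Fin N × Fin N) (Fin N × Fin N) ℂ :=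
  fun p q => if (p.1 : ℕ) + p.2 = q.1 + q.2 ∧ (q.2 : ℕ) ≤ p.1 then
    v ^ (-((N : ℤ) - 1) * (1 + (q.1 : ℕ) + (q.2 : ℕ)) + 2 * (p.1 : ℕ) * (p.2 : ℕ)) *
      v ^ (((p.1 : ℕ) - q.2) * ((p.1 : ℕ) - q.2 - 1) / 2) *
      (brf v p.1 / (brf v q.2 * brf v ((p.1 : ℕ) - q.2))) *
      ∏ t ∈ range ((p.1 : ℕ) - q.2), br v ((N : ℤ) - (q.1 : ℕ) + t)
    else 0

/-- The negative crossing, inverse of `crossP N v`:
`e_i ⊗ e_j ↦ ∑_n (-1)^n v^{(N-1)(1+i+j) - 2ij - n(n-1)/2}
({i+n}! / ({i}! {n}!)) ∏_{t<n} {N-j+t} e_{j-n} ⊗ e_{i+n}`. -/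
noncomputable def crossN (N : ℕ) (v : ℂ) : Matrix (Fin N × Fin N) (Fin N × Fin N) ℂ :=
  fun p q => if (p.1 : ℕ) + p.2 = q.1 + q.2 ∧ (q.1 : ℕ) ≤ p.2 then
    (-1) ^ ((p.2 : ℕ) - q.1) *
      v ^ (((N : ℤ) - 1) * (1 + (q.1 : ℕ) + (q.2 : ℕ)) - 2 * (q.1 : ℕ) * (q.2 : ℕ)) /
      v ^ (((p.2 : ℕ) - q.1) * ((p.2 : ℕ) - q.1 - 1) / 2) *
      (brf v p.2 / (brf v q.1 * brf v ((p.2 : ℕ) - q.1))) *
      ∏ t ∈ range ((p.2 : ℕ) - q.1), br v ((N : ℤ) - (q.2 : ℕ) + t)
    else 0

/-- The crossing `A` on the strands number `k` and `k + 1` (counted from `0`) of `n` strands. -/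
def gen {ι : Type} [DecidableEq ι] (A : Matrix (ι × ι) (ι × ι) ℂ) (n k : ℕ) :
    Matrix (Fin n → ι) (Fin n → ι) ℂ :=
  fun s t => if h : k + 1 < n then
    (if ∀ j : Fin n, (j : ℕ) ≠ k → (j : ℕ) ≠ k + 1 → s j = t j then
      A (s ⟨k, by omega⟩, s ⟨k + 1, h⟩) (t ⟨k, by omega⟩, t ⟨k + 1, h⟩) else 0)
    else (if s = t then 1 else 0)

/-- The operator of a braid word on `n` strands (the last letter acts first): the letter
`(k, true)` is the crossing `P`, the letter `(k, false)` the crossing `Q` on the strands number `k`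
and `k + 1`. -/
def rep {ι : Type} [Fintype ι] [DecidableEq ι] (P Q : Matrix (ι × ι) (ι × ι) ℂ) (n : ℕ)
    (w : List (ℕ × Bool)) : Matrix (Fin n → ι) (Fin n → ι) ℂ :=
  (w.map fun g => gen (if g.2 then P else Q) n g.1).prod

/-- The coefficients of the invariant vector `∑_k kap k e_k ⊗ e_{N-1-k}` of `V_N ⊗ V_N`:
`kap k = (-1)^k v^{k(N-2-k)} {k}! {N-1-k}! / {N-1}!`. -/
noncomputable def kap (N : ℕ) (v : ℂ) (k : ℕ) : ℂ :=
  (-1) ^ k * v ^ ((k : ℤ) * ((N : ℤ) - 2 - k)) * (brf v k * brf v (N - 1 - k) / brf v (N - 1))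

/-- The cup: the invariant vector of `V_N ⊗ V_N`. -/
noncomputable def cup (N : ℕ) (v : ℂ) (p : Fin N × Fin N) : ℂ :=
  if (p.1 : ℕ) + p.2 = N - 1 then kap N v p.1 else 0

/-- The cap: the invariant linear form on `V_N ⊗ V_N`. -/
noncomputable def cap (N : ℕ) (v : ℂ) (p : Fin N × Fin N) : ℂ :=
  if (p.1 : ℕ) + p.2 = N - 1 then (kap N v p.2)⁻¹ else 0

/-- The operator `V_N → V_N` of the (1,1)-tangle: a cup between the strands 2 and 3, the braid word
`w` on three strands, a cap between the strands 1 and 2. -/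
noncomputable def tangle12 (N : ℕ) (w : List (ℕ × Bool)) (v : ℂ) : Matrix (Fin N) (Fin N) ℂ :=
  fun i j => ∑ p : Fin N × Fin N, ∑ q : Fin N × Fin N,
    cap N v p * rep (crossP N v) (crossN N v) 3 w ![p.1, p.2, i] ![j, q.1, q.2] * cup N v q

/-- The operator `V_N → V_N` of the (1,1)-tangle: a cup between the strands 2 and 3, the braid word
`w` on three strands, a cap between the strands 2 and 3. -/
noncomputable def tangle23 (N : ℕ) (w : List (ℕ × Bool)) (v : ℂ) : Matrix (Fin N) (Fin N) ℂ :=
  fun i j => ∑ p : Fin N × Fin N, ∑ q : Fin N × Fin N,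
    cap N v p * rep (crossP N v) (crossN N v) 3 w ![i, p.1, p.2] ![j, q.1, q.2] * cup N v q

/-- A twist region: `|a|` crossings of the strands number `k` and `k + 1` (counted from `0`),
positive ones for `a ≥ 0` and negative ones for `a < 0`. -/
def twist (k : ℕ) (a : ℤ) : List (ℕ × Bool) := List.replicate a.natAbs (k, decide (0 ≤ a))

/-- The braid word of the twist regions `a_1, a_2, …`, arbitrary integers (the last letter acts
first): `a_1` crossings between the strands 1 and 2, `-a_2` crossings between the strands 2 and 3,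
`a_3` crossings between the strands 1 and 2, and so on (for `b = true`; for `b = false` it starts
between the strands 2 and 3).  If all `a_i` have the same sign the diagram is alternating. -/
def word : Bool → List ℤ → List (ℕ × Bool)
  | _, [] => []
  | b, a :: l => word (!b) l ++ (if b then twist 0 a else twist 1 (-a))

/-- The `N`-coloured Jones polynomial of `C(a_1, …, a_r)` (unknot `= 1`) at `q = v^2`, up to
sign and a power of `v` (which depend on the framing and the orientation and have modulus one at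
`v_N`): the entry of the (1,1)-tangle operator at the highest weight vector `e_0`. -/
noncomputable def jones (as : List ℤ) (N : ℕ) (v : ℂ) : ℂ :=
  if h : 0 < N then
    (if as.length % 2 = 0 then tangle12 N (word true as) v ⟨0, h⟩ ⟨0, h⟩
      else tangle23 N (word true as) v ⟨0, h⟩ ⟨0, h⟩)
  else 0

/-- `v_N = exp (π i / N)`, so that `q = v_N^2 = exp (2 π i / N)`. -/
noncomputable def root (N : ℕ) : ℂ := Complex.exp (Real.pi * Complex.I / N)

/-- The Kashaev invariant of `C(a_1, …, a_r)` (up to a factor of modulus one). -/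
noncomputable def kashaev (as : List ℤ) (N : ℕ) : ℂ := jones as N (root N)

/-- Numerator and denominator of the continued fraction `a_1 + 1 / (a_2 + 1 / (⋯ + 1 / a_r))`.
`C(a_1, …, a_r)` is a knot if the numerator is odd and a link with two components if it is even. -/
def det : List ℤ → ℤ × ℤ
  | [] => (1, 0)
  | a :: l => (a * (det l).1 + (det l).2, (det l).1)

/-! ### Checks of the definitions (not part of the result) -/

/-- For `N = 2` the crossings satisfy the skein relation of the Jones polynomial. -/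
theorem skein (v : ℂ) (hv : v ≠ 0) (h1 : br v 1 ≠ 0) :
    v ^ 2 • crossP 2 v - (v ^ 2)⁻¹ • crossN 2 v =
      (v - v⁻¹) • (1 : Matrix (Fin 2 × Fin 2) (Fin 2 × Fin 2) ℂ) :=
  Pool.Agent.H550R3.Jones.taskSanSkein v hv h1

/-- The two crossings are inverse to each other. -/
theorem cross_inverse (N : ℕ) (v : ℂ) (hv : v ≠ 0)
    (h : ∀ k : ℕ, 0 < k → k < N → br v k ≠ 0) :
    crossP N v * crossN N v = 1 ∧ crossN N v * crossP N v = 1 :=
  Pool.Agent.H309R4.Jones.SanI.taskSanInv Pool.Agent.H345J.taskMod Pool.Agent.H345J.taskInv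
    Pool.Agent.H559R3.J.taskCross N v ⟨hv, h⟩

/-- The Yang-Baxter equation, for every colour. -/
theorem yang_baxter (N : ℕ) (v : ℂ) (hv : v ≠ 0) (h : ∀ k : ℕ, 0 < k → k < N → br v k ≠ 0) :
    gen (crossP N v) 3 0 * gen (crossP N v) 3 1 * gen (crossP N v) 3 0 =
      gen (crossP N v) 3 1 * gen (crossP N v) 3 0 * gen (crossP N v) 3 1 :=
  Pool.Agent.H927R2.J.SanYB.taskSanYB Pool.Agent.H345J.taskMod Pool.Agent.H345J.taskInt
    Pool.Agent.H345J.taskInv Pool.Agent.H667J.taskHex1 Pool.Agent.H22R3.J.taskNat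
    Pool.Agent.H559R3.J.taskCross N v ⟨hv, h⟩

/-- Zigzag: without crossings the tangle is trivial (the unknot has the value `1`). -/
theorem zigzag (N : ℕ) (v : ℂ) (hv : v ≠ 0) (h : ∀ k : ℕ, 0 < k → k < N → br v k ≠ 0) :
    tangle12 N [] v = 1 :=
  Pool.Agent.W709.RT.zigzag hv h

/-! ### The result -/

lemma word_eq : ∀ (b : Bool) (as : List ℤ), word b as = Pool.Agent.Q66.TB.cw b as
  | _, [] => rfl
  | b, a :: l => by
    rw [word, Pool.Agent.Q66.TB.cw, word_eq (!b) l]
    cases b <;> rfl

lemma jones_cont (as : List ℤ) (N : ℕ) (hN : 1 ≤ N) : ContinuousAt (jones as N) (root N) := by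
  have hb : ∀ k : ℕ, 0 < k → k < N → Pool.Agent.H550R3.Jones.br (root N) k ≠ 0 :=
    fun k h0 h1 => Pool.Agent.W715.VC.br_ne (by omega) (by omega)
  have hv : root N ≠ 0 := Complex.exp_ne_zero _
  unfold jones
  by_cases h : as.length % 2 = 0
  · simp only [dif_pos (show 0 < N by omega), if_pos h]
    exact Pool.Agent.W709.RT.tang_cont hv hb _ _ _
  · simp only [dif_pos (show 0 < N by omega), if_neg h]
    exact Pool.Agent.Q66.TB.tang'_cont hv hb _ _ _

lemma kashaev_even (l : List ℤ) (hl : l.length % 2 = 0) {N : ℕ} (hN : 0 < N) :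
    kashaev l N = Pool.Agent.Q66.TB.J12 N (Pool.Agent.Q66.TB.cw true l) := by
  unfold kashaev jones
  rw [dif_pos hN, word_eq, if_pos hl]
  exact Pool.Agent.Q66.TB.tang_J12 hN _

lemma kashaev_gram (c d : List ℤ) (h : c.length % 2 = d.length % 2) {N : ℕ} (hN : 0 < N) :
    kashaev (d ++ c.reverse) N = Pool.Agent.Q66.TB.J12 N
      (Pool.Agent.W715.VC.dual (Pool.Agent.Q66.TB.cw true c) ++ Pool.Agent.Q66.TB.cw true d) := by
  have hp : Pool.Agent.Q66.TB.par true c.length = Pool.Agent.Q66.TB.par true d.length := by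
    unfold Pool.Agent.Q66.TB.par
    rw [h]
  rw [kashaev_even _ (by rw [List.length_append, List.length_reverse]; omega) hN,
    Pool.Agent.Q66.TB.cw_append, ← hp, ← Pool.Agent.Q66.TB.dual_cw]

/-- Let `N ≥ 1`.
(1) The coloured Jones polynomials are continuous at the root of unity, so that the Kashaev
invariants are limits of their values.
(2) The Kashaev invariant `a_N` of `C(c, c̄)` is a positive real number, for all lists `c` of
integers.
(3) The ratios `a_{N+2} / a_N` are positive real numbers, and their principal logarithms are real.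
(4) For all lists `c_1, …, c_k` whose lengths have the same parity the matrix of the numbers
`a_N (C(c_j, c̄_i))` is hermitian and positive semidefinite. -/
theorem result (N : ℕ) (hN : 1 ≤ N) :
    (∀ as : List ℤ, ContinuousAt (jones as N) (root N)) ∧
    (∀ c : List ℤ, ∃ x : ℝ, 0 < x ∧ kashaev (c ++ c.reverse) N = x) ∧
    (∀ c : List ℤ, (∃ x : ℝ, 0 < x ∧
        kashaev (c ++ c.reverse) (N + 2) / kashaev (c ++ c.reverse) N = x) ∧
      (Complex.log (kashaev (c ++ c.reverse) (N + 2) / kashaev (c ++ c.reverse) N)).im = 0) ∧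
    ∀ (k : ℕ) (c : Fin k → List ℤ), (∀ i j, (c i).length % 2 = (c j).length % 2) →
      (∀ i j, (starRingEnd ℂ) (kashaev (c j ++ (c i).reverse) N) =
        kashaev (c i ++ (c j).reverse) N) ∧
      ∀ t : Fin k → ℂ, ∃ x : ℝ, 0 ≤ x ∧
        ∑ i, ∑ j, (starRingEnd ℂ) (t i) * t j * kashaev (c j ++ (c i).reverse) N = x := by
  have hpos : ∀ (M : ℕ), 0 < M → ∀ c : List ℤ,
      ∃ x : ℝ, 0 < x ∧ kashaev (c ++ c.reverse) M = x := by
    intro M hM c
    rw [kashaev_gram c c rfl hM]
    exact Pool.Agent.H172.AP.J12_pos hM c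
  refine ⟨fun as => jones_cont as N hN, hpos N hN, fun c => ?_, fun k c hc => ⟨fun i j => ?_,
    fun t => ?_⟩⟩
  · obtain ⟨x, hx, h1⟩ := hpos (N + 2) (by omega) c
    obtain ⟨y, hy, h2⟩ := hpos N hN c
    rw [h1, h2]
    refine ⟨⟨x / y, div_pos hx hy, by push_cast; rfl⟩, ?_⟩
    rw [← Complex.ofReal_div, ← Complex.ofReal_log (div_pos hx hy).le, Complex.ofReal_im]
  · rw [kashaev_gram _ _ (hc i j) hN, kashaev_gram _ _ (hc j i) hN,
      Pool.Agent.H172.AP.J12_gram hN (Pool.Agent.Q66.TB.cw_lt _ _),
      Pool.Agent.H172.AP.J12_gram hN (Pool.Agent.Q66.TB.cw_lt _ _),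
      Pool.Agent.W715.VC.Hf_conj]
  · obtain ⟨x, hx, h⟩ := Pool.Agent.H172.AP.gram hN (fun i => Pool.Agent.Q66.TB.cw true (c i))
      (fun i => Pool.Agent.Q66.TB.cw_lt _ _) t
    refine ⟨x, hx, ?_⟩
    rw [← h]
    exact Finset.sum_congr rfl fun i _ => Finset.sum_congr rfl fun j _ => by
      rw [kashaev_gram _ _ (hc i j) hN]

end Pool.Agent.Results.MP_b30479_gt.AmphicheiralTwoBridge
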