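import Pool.Agent.Results.MP_f66dee_gt.AntipodalDoubles
import Pool.Agent.Q66.TG.Mom

/-!
# Sequences of links with positive invariants: the powers of a doubled tangle

Diagrams of tangles and their invariants `kashaev D N` at `q = e^(2 π i / N)`, antipodal images
(`star`), `glue` and the moves (`Isotopic`) are those of
`Pool.Agent.Results.MP_f66dee_gt.AntipodalDoubles`.

Let `T` be an arbitrary tangle with one end below and three ends above, and `A` an arbitrary tangle
with three ends below and three ends above (any diagrams; closed components are allowed).  The link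
`link T A n` is the closure of `T`, followed by `n` copies of `A` and the antipodal image of `A`,
followed by the antipodal image of `T`.  It is the antipodal double of the tangle which is the upper
half of this diagram, so its framing factors cancel, and `kashaev (link T A n) N` is the coloured
Jones polynomial at `t = e^(2 π i / N)` itself for odd `N`, and for all `N` if the link is a knot.

Example: for `T = cup 1` and `A` one twist region with `a` crossings, `link T A n` is the two-bridge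
link `C(a, …, a)` with `2 n` entries, for example the figure-eight knot for `a = 2`, `n = 1` and for
`a = 1`, `n = 2`, and the knot `6_3` for `a = 1`, `n = 3`.
-/

set_option autoImplicit false

namespace Pool.Agent.Results.MP_b30479_gt.ReflectionMoments

open Finset Filter Topology
open Pool.Agent.Results.MP_759431_gt.TwistRegionBound (Piece Diagram jones kashaev root)
open Pool.Agent.Results.MP_f66dee_gt.AntipodalDoubles (Tangle star glue Isotopic)

/-- `n` copies of a tangle. -/
def rep (n : ℕ) (A : Diagram) : Diagram := (List.replicate n A).flatten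

/-- `T`, `n` copies of `A` and its antipodal image, and the antipodal image of `T`. -/
def link (T A : Diagram) (n : ℕ) : Diagram := T ++ (rep n (A ++ star A 3) ++ star T 1)

/-- `limsup 2 π log |⟨D⟩_N| / N ≤ V` for `N → ∞` in the set `S`. -/
def LimsupLe (S : Set ℕ) (D : Diagram) (V : ℝ) : Prop :=
  ∀ ε : ℝ, 0 < ε → ∀ᶠ N : ℕ in atTop ⊓ 𝓟 S,
    ‖kashaev D N‖ ≤ Real.exp ((V / (2 * Real.pi) + ε) * N)

/-- `liminf 2 π log |⟨D⟩_N| / N ≥ V` for `N → ∞` in the set `S`. -/
def LiminfGe (S : Set ℕ) (D : Diagram) (V : ℝ) : Prop :=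
  ∀ ε : ℝ, 0 < ε → ∀ᶠ N : ℕ in atTop ⊓ 𝓟 S,
    Real.exp ((V / (2 * Real.pi) - ε) * N) ≤ ‖kashaev D N‖

/-- `D` is a part of an unknot. -/
def InUnknot (T : Diagram) : Prop := ∃ S : Diagram, Tangle S 1 3 ∧ Isotopic (glue S T) []

/-! ### Translation to the library -/

open Pool.Agent.Results.MP_759431_gt.TwistRegionBound (tr)
open Pool.Agent.Results.MP_f66dee_gt.AntipodalDoubles (tangle_iff star_map t13 kashaev_run
  isotopic_kashaev kashaev_nil ne_of tangle_append)
open Pool.Agent.Q66.TG (FitD outD dlD T13 T33 e0 an pw)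

lemma t33 {A : Diagram} (h : Tangle A 3 3) : T33 (A.map tr) := (tangle_iff A 3 3).1 h

lemma rep_map (n : ℕ) (A : Diagram) : (rep n A).map tr = pw (A.map tr) n := by
  unfold rep pw
  rw [List.map_flatten, List.map_replicate]

lemma kashaev_link {N : ℕ} (hN : 0 < N) (T A : Diagram) (n : ℕ) :
    kashaev (link T A n) N = an hN (T.map tr) (A.map tr) n := by
  rw [kashaev_run hN]
  unfold link an Pool.Agent.Q66.TG.sq
  rw [List.map_append, List.map_append, rep_map, List.map_append, star_map, star_map]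

/-! ### Checks of the definitions (not part of the result) -/

/-- `link T A 0` and `link T A 1` are the antipodal doubles of `T` and of `T` followed by `A`. -/
theorem link_zero_one (T A : Diagram) (hT : Tangle T 1 3) :
    link T A 0 = glue T T ∧ link T A 1 = glue (T ++ A) (T ++ A) := by
  have hs : ∀ (D D' : Diagram) (m n : ℕ), Tangle D m n →
      star (D ++ D') m = star D' n ++ star D m := by
    intro D
    induction D with
    | nil =>
      intro D' m n h
      obtain rfl : m = n := h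
      change star D' m = star D' m ++ []
      rw [List.append_nil]
    | cons P D ih =>
      intro D' m n h
      change star (D ++ D') _ ++ [_] = star D' n ++ (star D _ ++ [_])
      rw [ih D' _ n h.2, List.append_assoc]
  constructor
  · simp [link, rep, glue]
  · simp [link, rep, glue, hs T A 1 3 hT]

/-- The two-bridge links `C(a, a)` and `C(a, a, a, a)`. -/
example (a : ℕ) : link [.cup 1] [.twist 0 true a] 1 =
    [.cup 1, .twist 0 true a, .twist 1 false a, .cap 0] ∧
    link [.cup 1] [.twist 0 true a] 2 = [.cup 1, .twist 0 true a, .twist 1 false a,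
      .twist 0 true a, .twist 1 false a, .cap 0] := ⟨rfl, rfl⟩

/-- The cup is a part of an unknot. -/
theorem inUnknot_cup : InUnknot [.cup 1] := by
  refine ⟨[.cup 1], ⟨?_, rfl⟩, ?_⟩
  · change 1 ≤ 1
    exact le_rfl
  · have := Isotopic.move [] [.cup 1, .cap 0] [] [] 1 rfl
      (Pool.Agent.Results.MP_f66dee_gt.AntipodalDoubles.Move.zig 1 0 (by omega))
      ⟨by change 1 ≤ 1; exact le_rfl, by change 0 + 2 ≤ 3; omega, rfl⟩
    exact this

/-! ### The result -/

lemma upper {a b c : ℕ → ℝ} {V W : ℝ} {d e : ℕ} (hde : 0 < d + e) (S : Set ℕ)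
    (h : ∀ N : ℕ, 1 ≤ N → c N ^ (d + e) ≤ a N ^ e * b N ^ d) (ha0 : ∀ N, 0 ≤ a N)
    (hb0 : ∀ N, 0 ≤ b N)
    (ha : ∀ ε : ℝ, 0 < ε → ∀ᶠ N : ℕ in atTop ⊓ 𝓟 S, a N ≤ Real.exp ((V / (2 * Real.pi) + ε) * N))
    (hb : ∀ ε : ℝ, 0 < ε → ∀ᶠ N : ℕ in atTop ⊓ 𝓟 S, b N ≤ Real.exp ((W / (2 * Real.pi) + ε) * N))
    (ε : ℝ) (hε : 0 < ε) : ∀ᶠ N : ℕ in atTop ⊓ 𝓟 S,
      c N ≤ Real.exp (((e * V + d * W) / (d + e) / (2 * Real.pi) + ε) * N) := by
  have h1 : ∀ᶠ N : ℕ in atTop ⊓ 𝓟 S, 1 ≤ N := (eventually_ge_atTop 1).filter_mono inf_le_left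
  filter_upwards [h1, ha ε hε, hb ε hε] with N hN h2 h3
  have hde' : (0 : ℝ) < d + e := by exact_mod_cast hde
  have h4 : c N ^ (d + e) ≤
      Real.exp (((e * V + d * W) / (d + e) / (2 * Real.pi) + ε) * N) ^ (d + e) := by
    refine (h N hN).trans ((mul_le_mul (pow_le_pow_left₀ (ha0 N) h2 e)
      (pow_le_pow_left₀ (hb0 N) h3 d) (pow_nonneg (hb0 N) _)
      (pow_nonneg (Real.exp_pos _).le _)).trans (le_of_eq ?_))
    rw [← Real.exp_nat_mul, ← Real.exp_nat_mul, ← Real.exp_nat_mul, ← Real.exp_add]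
    congr 1
    have := Real.pi_ne_zero
    push_cast
    field_simp
    ring
  exact le_of_pow_le_pow_left₀ (by omega) (Real.exp_pos _).le h4

lemma lower {a b c : ℕ → ℝ} {V U : ℝ} {d e : ℕ} (hd : 0 < d) (S : Set ℕ)
    (h : ∀ N : ℕ, 1 ≤ N → c N ^ (d + e) ≤ a N ^ e * b N ^ d) (ha0 : ∀ N, 0 ≤ a N)
    (hb0 : ∀ N, 0 ≤ b N)
    (ha : ∀ ε : ℝ, 0 < ε → ∀ᶠ N : ℕ in atTop ⊓ 𝓟 S, a N ≤ Real.exp ((V / (2 * Real.pi) + ε) * N))
    (hc : ∀ ε : ℝ, 0 < ε → ∀ᶠ N : ℕ in atTop ⊓ 𝓟 S, Real.exp ((U / (2 * Real.pi) - ε) * N) ≤ c N)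
    (ε : ℝ) (hε : 0 < ε) : ∀ᶠ N : ℕ in atTop ⊓ 𝓟 S,
      Real.exp ((((d + e) * U - e * V) / d / (2 * Real.pi) - ε) * N) ≤ b N := by
  have h1 : ∀ᶠ N : ℕ in atTop ⊓ 𝓟 S, 1 ≤ N := (eventually_ge_atTop 1).filter_mono inf_le_left
  have hd' : (0 : ℝ) < d := by exact_mod_cast hd
  set δ : ℝ := ε * d / (d + 2 * e) with hδ
  have hδ0 : 0 < δ := by positivity
  filter_upwards [h1, ha δ hδ0, hc δ hδ0] with N hN h2 h3
  have h4 : Real.exp ((U / (2 * Real.pi) - δ) * N) ^ (d + e) ≤
      Real.exp ((V / (2 * Real.pi) + δ) * N) ^ e * b N ^ d :=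
    (pow_le_pow_left₀ (Real.exp_pos _).le h3 _).trans ((h N hN).trans
      (mul_le_mul_of_nonneg_right (pow_le_pow_left₀ (ha0 N) h2 e) (pow_nonneg (hb0 N) _)))
  have h5 : Real.exp ((U / (2 * Real.pi) - δ) * N) ^ (d + e) =
      Real.exp ((V / (2 * Real.pi) + δ) * N) ^ e *
        Real.exp ((((d + e) * U - e * V) / d / (2 * Real.pi) - ε) * N) ^ d := by
    rw [← Real.exp_nat_mul, ← Real.exp_nat_mul, ← Real.exp_nat_mul, ← Real.exp_add]
    congr 1
    have hp := Real.pi_ne_zero
    have hde : ((d : ℝ) + 2 * e) ≠ 0 := by positivity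
    have e1 : δ * (d + 2 * e) = ε * d := by
      rw [hδ]
      field_simp
    have e2 : ((d : ℝ) + e) * (U / (2 * Real.pi)) = e * (V / (2 * Real.pi)) +
        d * (((d + e) * U - e * V) / d / (2 * Real.pi)) := by
      field_simp
      ring
    push_cast
    linear_combination (N : ℝ) * e2 - (N : ℝ) * e1
  rw [h5] at h4
  have h6 := le_of_mul_le_mul_left h4 (pow_pos (Real.exp_pos _) _)
  exact le_of_pow_le_pow_left₀ hd.ne' (hb0 N) h6

/-- **Powers of doubled tangles.**  Let `T` be an arbitrary tangle with one end below and three ends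
above, `A` an arbitrary tangle with three ends below and above, and `L_n = link T A n`.
(1) For every `N ≥ 1`, for example for every odd `N`, the numbers `a_n = ⟨L_n⟩_N`, `n ≥ 0`, are real,
nonnegative and form a Stieltjes moment sequence: the Hankel matrices `(a_{i+j})` and
`(a_{i+j+1})` are positive semidefinite.
(2) For all `i`, `d`, `e ≥ 0`: `a_{i+d}^(d+e) ≤ a_i^e a_{i+d+e}^d`.  In particular `n ↦ log a_n` is
convex.
(3) If `T` and `T` followed by `A` are parts of unknots, then for all `n ≥ 0` and all `N ≥ 1`: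
`⟨L_n⟩_N` is a positive real number, the quotient `⟨L_n⟩_(N+2) / ⟨L_n⟩_N` is a positive real number,
and the imaginary part of `π log (⟨L_n⟩_(N+2) / ⟨L_n⟩_N)` is zero; and if this sequence converges for
`N → ∞` through odd integers, its limit is a real number.
(4) Let `S` be a set of integers, for example the odd integers.  If the upper growth rates along `S`
are at most `V` for `L_i` and at most `W` for `L_{i+d+e}`, then the one of `L_{i+d}` is at most
`(e V + d W) / (d + e)`.
(5) If the upper growth rate of `L_i` along `S` is at most `V` and the lower growth rate of `L_{i+d}`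
is at least `U`, `d ≥ 1`, then that of `L_{i+d+e}` is at least `((d + e) U - e V) / d`.
(6) In particular, if `T` is a cup and the lower growth rate of `L_1`, the antipodal double of the
tangle `T` followed by `A`, is at least `U`, then that of `L_n` is at least `n U` for all `n ≥ 1`. -/
theorem result (T A : Diagram) (hT : Tangle T 1 3) (hA : Tangle A 3 3) :
    (∀ N : ℕ, 1 ≤ N → (∀ n : ℕ, ∃ r : ℝ, 0 ≤ r ∧ kashaev (link T A n) N = r) ∧
      ∀ (m : ℕ) (c : Fin m → ℂ),
        (∃ r : ℝ, 0 ≤ r ∧ ∑ i, ∑ j,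
          (starRingEnd ℂ) (c i) * c j * kashaev (link T A ((i : ℕ) + j)) N = r) ∧
        ∃ r : ℝ, 0 ≤ r ∧ ∑ i, ∑ j,
          (starRingEnd ℂ) (c i) * c j * kashaev (link T A ((i : ℕ) + j + 1)) N = r) ∧
    (∀ N i d e : ℕ, 1 ≤ N → ‖kashaev (link T A (i + d)) N‖ ^ (d + e) ≤
      ‖kashaev (link T A i) N‖ ^ e * ‖kashaev (link T A (i + (d + e))) N‖ ^ d) ∧
    (InUnknot T → InUnknot (T ++ A) → ∀ n : ℕ,
      (∀ N : ℕ, 1 ≤ N → (∃ r : ℝ, 0 < r ∧ kashaev (link T A n) N = r) ∧
        (∃ r : ℝ, 0 < r ∧ kashaev (link T A n) (N + 2) / kashaev (link T A n) N = r) ∧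
        (Real.pi * Complex.log (kashaev (link T A n) (N + 2) / kashaev (link T A n) N)).im = 0) ∧
      ∀ z : ℂ, Tendsto (fun N : ℕ => Real.pi *
          Complex.log (kashaev (link T A n) (N + 2) / kashaev (link T A n) N))
        (atTop ⊓ 𝓟 {N : ℕ | Odd N}) (𝓝 z) → ∃ V : ℝ, z = V) ∧
    (∀ (S : Set ℕ) (i d e : ℕ) (V W : ℝ), 0 < d + e → LimsupLe S (link T A i) V →
      LimsupLe S (link T A (i + (d + e))) W →
        LimsupLe S (link T A (i + d)) ((e * V + d * W) / (d + e))) ∧
    (∀ (S : Set ℕ) (i d e : ℕ) (V U : ℝ), 0 < d → LimsupLe S (link T A i) V →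
      LiminfGe S (link T A (i + d)) U →
        LiminfGe S (link T A (i + (d + e))) (((d + e) * U - e * V) / d)) ∧
    (T = [.cup 1] → ∀ (S : Set ℕ) (n : ℕ) (U : ℝ), 1 ≤ n → LiminfGe S (link T A 1) U →
      LiminfGe S (link T A n) (n * U)) := by
  have h13 := t13 hT
  have h33 := t33 hA
  have hthree : ∀ i d e N : ℕ, 1 ≤ N → ‖kashaev (link T A (i + d)) N‖ ^ (d + e) ≤
      ‖kashaev (link T A i) N‖ ^ e * ‖kashaev (link T A (i + (d + e))) N‖ ^ d := by
    intro i d e N hN
    have h0 : 0 < N := hN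
    rw [kashaev_link h0, kashaev_link h0, kashaev_link h0]
    exact Pool.Agent.Q66.TG.an_three h0 h13 h33 i d e
  have hlow : ∀ (S : Set ℕ) (i d e : ℕ) (V U : ℝ), 0 < d → LimsupLe S (link T A i) V →
      LiminfGe S (link T A (i + d)) U →
        LiminfGe S (link T A (i + (d + e))) (((d + e) * U - e * V) / d) := by
    intro S i d e V U hd hV hU ε hε
    exact lower hd S (hthree i d e) (fun N => norm_nonneg _) (fun N => norm_nonneg _) hV hU ε hε
  refine ⟨fun N hN => ⟨fun n => ?_, fun m c => ?_⟩, fun N i d e hN => hthree i d e N hN, ?_, ?_,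
    hlow, ?_⟩
  · have h0 : 0 < N := hN
    rw [kashaev_link h0]
    exact Pool.Agent.Q66.TG.an_nonneg h0 h13 h33 n
  · have h0 : 0 < N := hN
    simp only [kashaev_link h0]
    exact Pool.Agent.Q66.TG.hankel h0 h13 h33 c
  · rintro ⟨S, hS, hiso⟩ ⟨S', hS', hiso'⟩ n
    have hpos : ∀ N : ℕ, 1 ≤ N → ∃ r : ℝ, 0 < r ∧ kashaev (link T A n) N = r := by
      intro N hN
      have h0 : 0 < N := hN
      have h1 : kashaev (link T A 0) N ≠ 0 := by
        rw [(link_zero_one T A hT).1]
        refine ne_of h0 hS hT ?_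
        rw [← norm_pos_iff, isotopic_kashaev h0 hiso, kashaev_nil h0, norm_one]
        exact one_pos
      have h2 : kashaev (link T A 1) N ≠ 0 := by
        rw [(link_zero_one T A hT).2]
        refine ne_of h0 hS' (tangle_append _ _ _ _ _ hT hA) ?_
        rw [← norm_pos_iff, isotopic_kashaev h0 hiso', kashaev_nil h0, norm_one]
        exact one_pos
      rw [kashaev_link h0] at h1 h2 ⊢
      exact Pool.Agent.Q66.TG.an_pos h0 h13 h33 h1 h2 n
    have hq : ∀ N : ℕ, 1 ≤ N → ∃ r : ℝ, 0 < r ∧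
        kashaev (link T A n) (N + 2) / kashaev (link T A n) N = r := by
      intro N hN
      obtain ⟨r, hr, e1⟩ := hpos N hN
      obtain ⟨s, hs, e2⟩ := hpos (N + 2) (by omega)
      exact ⟨s / r, div_pos hs hr, by rw [e1, e2, Complex.ofReal_div]⟩
    have him : ∀ N : ℕ, 1 ≤ N → (Real.pi * Complex.log (kashaev (link T A n) (N + 2) /
        kashaev (link T A n) N)).im = 0 := by
      intro N hN
      obtain ⟨r, hr, e⟩ := hq N hN
      rw [e, ← Complex.ofReal_log hr.le, ← Complex.ofReal_mul, Complex.ofReal_im]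
    refine ⟨fun N hN => ⟨hpos N hN, hq N hN, him N hN⟩, fun z hz => ⟨z.re, ?_⟩⟩
    apply Complex.ext
    · rw [Complex.ofReal_re]
    · rw [Complex.ofReal_im]
      have : (atTop ⊓ 𝓟 {N : ℕ | Odd N}).NeBot := by
        rw [Filter.neBot_iff, Ne, Filter.inf_principal_eq_bot]
        intro hmem
        obtain ⟨M, hM⟩ := Filter.mem_atTop_sets.1 hmem
        exact hM (2 * M + 1) (by omega) ⟨M, rfl⟩
      have h1 : Tendsto (fun _ : ℕ => (0 : ℝ)) (atTop ⊓ 𝓟 {N : ℕ | Odd N}) (𝓝 z.im) := by
        refine ((Complex.continuous_im.tendsto z).comp hz).congr' ?_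
        have h2 : ∀ᶠ N : ℕ in atTop ⊓ 𝓟 {N : ℕ | Odd N}, 1 ≤ N :=
          (eventually_ge_atTop 1).filter_mono inf_le_left
        filter_upwards [h2] with N hN
        exact him N hN
      exact tendsto_nhds_unique h1 tendsto_const_nhds
  · intro S i d e V W hde hV hW ε hε
    exact upper hde S (hthree i d e) (fun N => norm_nonneg _) (fun N => norm_nonneg _) hV hW ε hε
  · rintro rfl S n U hn hU
    have h0 : LimsupLe S (link [.cup 1] A 0) 0 := by
      intro ε hε
      have h1 : ∀ᶠ N : ℕ in atTop ⊓ 𝓟 S, 1 ≤ N := (eventually_ge_atTop 1).filter_mono inf_le_left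
      filter_upwards [h1] with N hN
      have h2 : kashaev (link [.cup 1] A 0) N = 1 := by
        have h3 : 0 < N := hN
        rw [kashaev_link h3]
        exact Pool.Agent.Q66.TG.zig h3 1 (by omega)
      rw [h2, norm_one, zero_div, zero_add]
      exact Real.one_le_exp (by positivity)
    have h1 := hlow S 0 1 (n - 1) 0 U one_pos h0 (by rwa [Nat.zero_add])
    have e1 : 0 + (1 + (n - 1)) = n := by omega
    have e2 : (((1 : ℕ) : ℝ) + ((n - 1 : ℕ) : ℝ)) = n := by
      rw [← Nat.cast_add]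
      congr 1
      omega
    rw [e1, e2, mul_zero, sub_zero, Nat.cast_one, div_one] at h1
    exact h1

end Pool.Agent.Results.MP_b30479_gt.ReflectionMoments
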